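import Mathlib

open Polynomial Finset

namespace Pool.Agent.P.MP_382e70_an

noncomputable def lam (s e : ℝ) (n : ℕ) : ℝ := if n % 3 = 0 then e else s

noncomputable def q (s e : ℝ) : ℕ → ℝ[X]
  | 0 => 1
  | 1 => X
  | (n + 2) => X * q s e (n + 1) - C (lam s e (n + 1)) * q s e n

variable (s e : ℝ)

lemma lam0 (k : ℕ) : lam s e (3 * k) = e := by simp [lam]
lemma lam1 (k : ℕ) : lam s e (3 * k + 1) = s := by
  have : (3 * k + 1) % 3 = 1 := by omega
  simp [lam, this]
lemma lam2 (k : ℕ) : lam s e (3 * k + 2) = s := by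
  have : (3 * k + 2) % 3 = 2 := by omega
  simp [lam, this]
lemma lam_add3 (n : ℕ) : lam s e (n + 3) = lam s e n := by simp [lam]

lemma q_rec (n : ℕ) : q s e (n + 2) = X * q s e (n + 1) - C (lam s e (n + 1)) * q s e n := rfl

lemma lam_sum (t : ℕ) : lam s e (t + 1) + lam s e (t + 2) + lam s e (t + 3) = 2 * s + e := by
  unfold lam
  split_ifs <;> first | omega | ring

lemma lam_prod (t : ℕ) : lam s e (t + 1) * lam s e (t + 2) * lam s e (t + 3) = s * s * e := by
  unfold lam
  split_ifs <;> first | omega | ring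

lemma magic (t : ℕ) :
    q s e (t + 6) = (X ^ 3 - C (2 * s + e) * X) * q s e (t + 3) - C (s * s * e) * q s e t := by
  rw [← lam_sum s e t, ← lam_prod s e t]
  have h2 := q_rec s e t
  have h3 := q_rec s e (t + 1)
  have h4 := q_rec s e (t + 2)
  have h5 := q_rec s e (t + 3)
  have h6 := q_rec s e (t + 4)
  have l4 : lam s e (t + 3 + 1) = lam s e (t + 1) := by
    rw [show t + 3 + 1 = t + 1 + 3 by ring, lam_add3]
  have l5 : lam s e (t + 4 + 1) = lam s e (t + 2) := by
    rw [show t + 4 + 1 = t + 2 + 3 by ring, lam_add3]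
  rw [l4] at h5
  rw [l5] at h6
  simp only [show t + 1 + 2 = t + 3 by ring, show t + 1 + 1 = t + 2 by ring,
    show t + 2 + 2 = t + 4 by ring, show t + 2 + 1 = t + 3 by ring,
    show t + 3 + 2 = t + 5 by ring, show t + 3 + 1 = t + 4 by ring,
    show t + 4 + 2 = t + 6 by ring, show t + 4 + 1 = t + 5 by ring] at h3 h4 h5 h6
  simp only [map_add, map_mul]
  rw [h6, h5, h4, h3, h2]
  ring

lemma shift (j r : ℕ) : ∀ n : ℕ,
    q s e (3 * r + j + 3) * q s e (n + 3) - C (s * s * e) * (q s e (3 * r + j) * q s e n)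
      = q s e (j + 3) * q s e (n + 3 * r + 3) - C (s * s * e) * (q s e j * q s e (n + 3 * r)) := by
  induction r with
  | zero => intro n; simp
  | succ r ih =>
    intro n
    have h := ih (n + 3)
    have m1 := magic s e (3 * r + j)
    have m2 := magic s e n
    simp only [show 3 * (r + 1) + j + 3 = 3 * r + j + 6 by ring,
      show 3 * (r + 1) + j = 3 * r + j + 3 by ring,
      show n + 3 * (r + 1) = n + 3 + 3 * r by ring]
    rw [← h, show n + 3 + 3 = n + 6 by ring, m1, m2]
    ring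

def Cone (lo hi : ℕ) (f : ℝ[X]) : Prop :=
  ∃ g : ℕ → ℝ, (∀ k, 0 ≤ g k) ∧ f = ∑ k ∈ Icc lo hi, C (g k) * q s e k

variable {s e}

lemma Cone.single {lo hi k : ℕ} (h1 : lo ≤ k) (h2 : k ≤ hi) {c : ℝ} (hc : 0 ≤ c) :
    Cone s e lo hi (C c * q s e k) := by
  refine ⟨fun i => if i = k then c else 0, fun i => by beta_reduce; split_ifs <;> simp [hc], ?_⟩
  rw [Finset.sum_eq_single k]
  · simp
  · intro b _ hb; simp [hb]
  · intro h; exact absurd (mem_Icc.2 ⟨h1, h2⟩) h

lemma Cone.one {lo hi k : ℕ} (h1 : lo ≤ k) (h2 : k ≤ hi) : Cone s e lo hi (q s e k) := by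
  simpa using Cone.single (s := s) (e := e) h1 h2 zero_le_one

lemma Cone.add {lo hi : ℕ} {f f' : ℝ[X]} (h : Cone s e lo hi f) (h' : Cone s e lo hi f') :
    Cone s e lo hi (f + f') := by
  obtain ⟨g, hg, rfl⟩ := h
  obtain ⟨g', hg', rfl⟩ := h'
  refine ⟨fun k => g k + g' k, fun k => add_nonneg (hg k) (hg' k), ?_⟩
  rw [← Finset.sum_add_distrib]
  refine Finset.sum_congr rfl fun k _ => ?_
  rw [map_add]; ring

lemma Cone.smul {lo hi : ℕ} {f : ℝ[X]} {c : ℝ} (hc : 0 ≤ c) (h : Cone s e lo hi f) :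
    Cone s e lo hi (C c * f) := by
  obtain ⟨g, hg, rfl⟩ := h
  refine ⟨fun k => c * g k, fun k => mul_nonneg hc (hg k), ?_⟩
  rw [Finset.mul_sum]
  refine Finset.sum_congr rfl fun k _ => ?_
  rw [map_mul]; ring

lemma Cone.mono {lo hi lo' hi' : ℕ} {f : ℝ[X]} (h1 : lo' ≤ lo) (h2 : hi ≤ hi')
    (h : Cone s e lo hi f) : Cone s e lo' hi' f := by
  obtain ⟨g, hg, rfl⟩ := h
  refine ⟨fun k => if k ∈ Icc lo hi then g k else 0, 
    fun k => by beta_reduce; split_ifs <;> simp [hg k], ?_⟩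
  rw [← Finset.sum_subset (s₁ := Icc lo hi) (Icc_subset_Icc h1 h2)]
  · refine Finset.sum_congr rfl fun k hk => ?_
    simp only [hk, if_true]
  · intro k _ hk
    simp only [hk, if_false, map_zero, zero_mul]

lemma lam_nonneg (hs : 0 ≤ s) (he : 0 ≤ e) (n : ℕ) : 0 ≤ lam s e n := by
  unfold lam; split_ifs <;> assumption

lemma lam_pair (hs : 0 ≤ s) (he : 0 ≤ e) (n : ℕ) : s ≤ lam s e (n + 1) + lam s e n := by
  unfold lam; split_ifs <;> first | omega | linarith

lemma cone1 (hs : 0 ≤ s) (he : 0 ≤ e) (n : ℕ) :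
    Cone s e n (n + 2) (X * q s e (n + 1)) := by
  have : X * q s e (n + 1) = q s e (n + 2) + C (lam s e (n + 1)) * q s e n := by
    rw [q_rec]; ring
  rw [this]
  exact (Cone.one (by omega) (by omega)).add
    (Cone.single (by omega) (by omega) (lam_nonneg hs he _))

lemma q2 : q s e 2 = X ^ 2 - C s := by
  rw [q_rec, show lam s e (0 + 1) = s from lam1 s e 0]
  simp only [q]; ring

lemma q3 : q s e 3 = X ^ 3 - C (2 * s) * X := by
  rw [q_rec, show lam s e (1 + 1) = s from lam2 s e 0, q2]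
  simp only [q, map_mul, map_ofNat]; ring

lemma q4 : q s e 4 = (X ^ 3 - C (2 * s + e) * X) * X + C (s * e) := by
  rw [q_rec, show lam s e (2 + 1) = e from lam0 s e 1, q3, q2]
  simp only [map_mul, map_ofNat, map_add]; ring

lemma q5 : q s e 5 = (X ^ 3 - C (2 * s + e) * X) * (X ^ 2 - C s) := by
  rw [q_rec, show lam s e (3 + 1) = s from lam1 s e 1, q4, q3]
  simp only [map_mul, map_ofNat, map_add]; ring

lemma cone2 (hs : 0 ≤ s) (he : 0 ≤ e) (n : ℕ) :
    Cone s e n (n + 4) ((X ^ 2 - C s) * q s e (n + 2)) := by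
  have : (X ^ 2 - C s) * q s e (n + 2) = q s e (n + 4)
      + C (lam s e (n + 3) + lam s e (n + 2) - s) * q s e (n + 2)
      + C (lam s e (n + 2) * lam s e (n + 1)) * q s e n := by
    have h2 := q_rec s e n
    have h3 := q_rec s e (n + 1)
    have h4 := q_rec s e (n + 2)
    simp only [show n + 1 + 2 = n + 3 by ring, show n + 1 + 1 = n + 2 by ring,
      show n + 2 + 2 = n + 4 by ring, show n + 2 + 1 = n + 3 by ring] at h3 h4
    simp only [map_add, map_mul, map_sub]
    rw [h4, h3, h2]; ring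
  rw [this]
  refine ((Cone.one (by omega) (by omega)).add (Cone.single (by omega) (by omega) ?_)).add
    (Cone.single (by omega) (by omega) (mul_nonneg (lam_nonneg hs he _) (lam_nonneg hs he _)))
  have := lam_pair hs he (n + 2)
  linarith

lemma coneV (hs : 0 ≤ s) (he : 0 ≤ e) (j : ℕ) (hj : j < 3) (n : ℕ) :
    Cone s e n (n + j + 6)
      (q s e (j + 3) * q s e (n + 3) - C (s * s * e) * (q s e j * q s e n)) := by
  have m := magic s e n
  interval_cases j
  · have : q s e (0 + 3) * q s e (n + 3) - C (s * s * e) * (q s e 0 * q s e n)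
        = q s e (n + 6) + C e * (X * q s e (n + 2 + 1)) := by
      rw [m, show 0 + 3 = 3 from rfl, q3]
      simp only [q, map_mul, map_ofNat, map_add]; ring
    rw [this]
    exact (Cone.one (by omega) (by omega)).add
      (((cone1 hs he (n + 2)).mono (by omega) (by omega)).smul he)
  · have : q s e (1 + 3) * q s e (n + 3) - C (s * s * e) * (q s e 1 * q s e n)
        = X * q s e (n + 5 + 1) + C (s * e) * q s e (n + 3) := by
      rw [show n + 5 + 1 = n + 6 from rfl, m, show 1 + 3 = 4 from rfl, q4,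
        show q s e 1 = X from rfl]
      ring
    rw [this]
    exact ((cone1 hs he (n + 5)).mono (by omega) (by omega)).add
      (Cone.single (by omega) (by omega) (mul_nonneg hs he))
  · have : q s e (2 + 3) * q s e (n + 3) - C (s * s * e) * (q s e 2 * q s e n)
        = (X ^ 2 - C s) * q s e (n + 4 + 2) := by
      rw [show n + 4 + 2 = n + 6 from rfl, m, show 2 + 3 = 5 from rfl, q5, q2]
      ring
    rw [this]
    exact (cone2 hs he (n + 4)).mono (by omega) (by omega)

theorem cone_all (hs : 0 ≤ s) (he : 0 ≤ e) (m : ℕ) :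
    ∀ d : ℕ, Cone s e d (m + (m + d)) (q s e m * q s e (m + d)) := by
  induction m using Nat.strong_induction_on with
  | _ m ih =>
    intro d
    match m, ih with
    | 0, _ => simpa [q] using (Cone.one (s := s) (e := e) (le_refl d) (le_refl d))
    | 1, _ =>
      rw [show q s e 1 = X from rfl, show 1 + d = d + 1 by ring]
      exact (cone1 hs he d).mono (by omega) (by omega)
    | 2, _ =>
      rw [q2, show 2 + d = d + 2 by ring]
      exact (cone2 hs he d).mono (by omega) (by omega)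
    | (m + 3), ih =>
      have h1 := ih m (by omega) d
      have hm : m = 3 * (m / 3) + m % 3 := by omega
      have h2 := shift s e (m % 3) (m / 3) (m + d)
      rw [← hm] at h2
      have h3 := coneV hs he (m % 3) (by omega) (m + d + 3 * (m / 3))
      rw [← h2] at h3
      have h4 := (((h1.smul (c := s * s * e) (by positivity)).mono (le_refl d)
        (show m + (m + d) ≤ m + 3 + (m + 3 + d) by omega)).add
        (h3.mono (show d ≤ _ by omega) (show _ ≤ m + 3 + (m + 3 + d) by omega)))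
      convert h4 using 1
      rw [show m + 3 + d = m + d + 3 by ring]
      ring

lemma cone_sym (hs : 0 ≤ s) (he : 0 ≤ e) (m n : ℕ) :
    Cone s e (max m n - min m n) (m + n) (q s e m * q s e n) := by
  rcases le_total m n with h | h
  · obtain ⟨d, rfl⟩ := Nat.exists_eq_add_of_le h
    exact (cone_all hs he m d).mono (by omega) (by omega)
  · obtain ⟨d, rfl⟩ := Nat.exists_eq_add_of_le h
    rw [mul_comm]
    exact (cone_all hs he n d).mono (by omega) (by omega)

noncomputable def v (z : ℝ) (n : ℕ) : ℝ := (q ((1 - z) / 2) (z ^ 2) n).eval 1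

lemma v_rec (z : ℝ) (n : ℕ) :
    v z (n + 2) = v z (n + 1) - lam ((1 - z) / 2) (z ^ 2) (n + 1) * v z n := by
  simp [v, q_rec]

lemma v0 (z : ℝ) : v z 0 = 1 := by simp [v, q]
lemma v1 (z : ℝ) : v z 1 = 1 := by simp [v, q]

lemma v_closed (z : ℝ) (hz : z < 1) (k : ℕ) :
    v z (3 * k) = ((1 - z) / 2 * z) ^ k * (1 + k * ((1 + z) / (1 - z))) ∧
    v z (3 * k + 1) = ((1 - z) / 2 * z) ^ k * (1 + k * (1 + z)) ∧
    v z (3 * k + 2) = ((1 - z) / 2 * z) ^ k * ((1 + z) / 2 * (1 + k)) := by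
  have hz' : 1 - z ≠ 0 := by linarith
  induction k with
  | zero =>
    refine ⟨by simp [v0], by simp [v1], ?_⟩
    rw [v_rec, lam1]
    simp [v0, v1]; ring
  | succ k ih =>
    obtain ⟨h0, h1, h2⟩ := ih
    have e3 : v z (3 * (k + 1))
        = ((1 - z) / 2 * z) ^ (k + 1) * (1 + ((k + 1 : ℕ) : ℝ) * ((1 + z) / (1 - z))) := by
      rw [show 3 * (k + 1) = 3 * k + 1 + 2 by ring, v_rec,
        show 3 * k + 1 + 1 = 3 * k + 2 by ring, lam2, h1, h2, pow_succ]
      push_cast
      field_simp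
      ring
    have e4 : v z (3 * (k + 1) + 1)
        = ((1 - z) / 2 * z) ^ (k + 1) * (1 + ((k + 1 : ℕ) : ℝ) * (1 + z)) := by
      rw [show 3 * (k + 1) + 1 = 3 * k + 2 + 2 by ring, v_rec,
        show 3 * k + 2 + 1 = 3 * (k + 1) by ring, lam0, e3, h2, pow_succ]
      push_cast
      field_simp
      ring
    refine ⟨e3, e4, ?_⟩
    rw [v_rec, lam1, e3, e4]
    push_cast
    field_simp
    ring

lemma v_pos (z : ℝ) (hz0 : 0 < z) (hz : z < 1) (n : ℕ) : 0 < v z n := by
  have h1 : 0 < 1 - z := by linarith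
  obtain ⟨h0, h1, h2⟩ := v_closed z hz (n / 3)
  have hn : n = 3 * (n / 3) ∨ n = 3 * (n / 3) + 1 ∨ n = 3 * (n / 3) + 2 := by omega
  rcases hn with h | h | h
  · rw [h, h0]; positivity
  · rw [h, h1]; positivity
  · rw [h, h2]; positivity

lemma lam_pos (hs : 0 < s) (he : 0 < e) (n : ℕ) : 0 < lam s e n := by
  unfold lam; split_ifs <;> assumption

theorem family (z : ℝ) (hz0 : 0 < z) (hz : z < 1) :
    ∃ (a c : ℕ → ℝ) (P : ℕ → ℝ[X]) (g : ℕ → ℕ → ℕ → ℝ),
      (∀ n, 0 < a n) ∧ c 0 = 0 ∧ (∀ n, 1 ≤ n → 0 < c n) ∧ (∀ n, a n + c n = 1) ∧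
      P 0 = 1 ∧ P 1 = X ∧
      (∀ n, 1 ≤ n → X * P n = C (a n) * P (n + 1) + C (c n) * P (n - 1)) ∧
      (∀ m n, P m * P n = ∑ k ∈ Icc (max m n - min m n) (m + n), C (g m n k) * P k) ∧
      (∀ m n k, 0 ≤ g m n k) ∧
      g 2 2 0 = ((1 - z) / (1 + z)) ^ 2 ∧
      a 1 / (c 1 * c 2) = ((1 + z) / (1 - z)) ^ 2 := by
  have h1 : 0 < 1 - z := by linarith
  have hs : 0 < (1 - z) / 2 := by positivity
  have he : 0 < z ^ 2 := by positivity
  have vp := v_pos z hz0 hz
  choose G hG hGe using fun m n => cone_sym hs.le he.le m n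
  have hv2 : v z 2 = (1 + z) / 2 := by simpa using (v_closed z hz 0).2.2
  have hv3 : v z 3 = z := by
    have := (v_closed z hz 1).1
    rw [show 3 * 1 = 3 from rfl] at this
    rw [this]; field_simp; ring
  refine ⟨fun n => v z (n + 1) / v z n, fun n => 1 - v z (n + 1) / v z n,
    fun n => C (1 / v z n) * q ((1 - z) / 2) (z ^ 2) n,
    fun m n k => G m n k * v z k / (v z m * v z n), fun n => div_pos (vp _) (vp _), ?_, ?_, ?_, ?_,
    ?_, ?_, ?_, ?_, ?_, ?_⟩
  · simp [v0, v1]
  · intro n hn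
    obtain ⟨k, rfl⟩ : ∃ k, n = k + 1 := ⟨n - 1, by omega⟩
    beta_reduce
    rw [sub_pos, div_lt_one (vp _), v_rec]
    have := mul_pos (lam_pos hs he (k + 1)) (vp k)
    linarith
  · intro n; ring
  · simp [v0, q]
  · simp [v1, q]
  · intro n hn
    obtain ⟨k, rfl⟩ : ∃ k, n = k + 1 := ⟨n - 1, by omega⟩
    beta_reduce
    have a1 : v z (k + 1 + 1) / v z (k + 1) * (1 / v z (k + 1 + 1)) = 1 / v z (k + 1) := by
      have := vp (k + 1 + 1)
      have := vp (k + 1)
      field_simp
    have a2 : (1 - v z (k + 1 + 1) / v z (k + 1)) * (1 / v z k)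
        = 1 / v z (k + 1) * lam ((1 - z) / 2) (z ^ 2) (k + 1) := by
      have := vp k
      have := vp (k + 1)
      rw [v_rec]
      field_simp
      ring
    rw [Nat.add_sub_cancel, ← mul_assoc (C _) (C _), ← mul_assoc (C _) (C _), ← map_mul, ← map_mul,
      a1, a2, q_rec, map_mul]
    ring
  · intro m n
    beta_reduce
    rw [mul_mul_mul_comm, hGe m n, Finset.mul_sum]
    refine Finset.sum_congr rfl fun k _ => ?_
    rw [← mul_assoc, ← mul_assoc, ← map_mul, ← map_mul, ← map_mul]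
    congr 2
    have := vp k
    have := vp m
    have := vp n
    field_simp
  · intro m n k
    have := vp k
    have := vp m
    have := vp n
    have := hG m n k
    positivity
  · beta_reduce
    have h := hGe 2 2
    rw [show Icc (max 2 2 - min 2 2) (2 + 2) = {0, 1, 2, 3, 4} from by decide] at h
    simp only [Finset.sum_insert, Finset.mem_insert, Finset.mem_singleton, Finset.sum_singleton,
      OfNat.zero_ne_ofNat, OfNat.one_ne_ofNat, zero_ne_one, or_self, not_false_eq_true,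
      Nat.reduceEqDiff] at h
    rw [q4, q3, q2, show q ((1 - z) / 2) (z ^ 2) 1 = X from rfl,
      show q ((1 - z) / 2) (z ^ 2) 0 = 1 from rfl] at h
    have ev := fun x : ℝ => congrArg (Polynomial.eval x) h
    simp only [eval_mul, eval_add, eval_sub, eval_pow, eval_X, eval_C, eval_one] at ev
    have e0 := ev 0
    have e1 := ev 1
    have e2 := ev (-1)
    have e3 := ev 2
    have e4 := ev (-2)
    have g4 : G 2 2 4 = 1 := by linear_combination (-1 / 4) * e0 + (1 / 6) * e1 + (1 / 6) * e2 - (1 / 24) * e3 - (1 / 24) * e4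
    rw [g4] at e0 e1 e2
    have g2 : G 2 2 2 = z ^ 2 := by linear_combination e0 - (1 / 2) * e1 - (1 / 2) * e2
    rw [g2] at e0
    have g0 : G 2 2 0 = ((1 - z) / 2) ^ 2 := by linear_combination -e0
    rw [g0, v0, hv2]
    field_simp
  · beta_reduce
    rw [show 1 + 1 = 2 from rfl, show 2 + 1 = 3 from rfl, hv3, hv2, v1]
    have : 1 - (1 + z) / 2 / 1 = (1 - z) / 2 := by ring
    rw [this]
    have : 1 - z / ((1 + z) / 2) = (1 - z) / (1 + z) := by field_simp; ring
    rw [this]
    field_simp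

end Pool.Agent.P.MP_382e70_an
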